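import Mathlib

/-!
# Shifted Douglas-Rachford iterates for two balls

For two closed balls `A`, `B` of a real inner product space, `T = (Id + R_B R_A) / 2` and the minimal
displacement vector `v` of `T`, the sequence `T^n x + n v` converges for every point `x`. The centres of
the balls and `x` span an affine plane which is invariant under `T`. The component orthogonal to the
line of the centres is multiplied by a number of `[0, 1]` in each step, and the component along this
line converges by Fejer monotonicity and asymptotic regularity.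
-/

open Filter Topology Metric Set

namespace Pool.Agent.Results.MP_ef197a_an.ShiftedDR

variable {E : Type*} [NormedAddCommGroup E] [InnerProductSpace ℝ E]

/-- `P` is the nearest-point projection onto the set `C`. -/
def IsProj (C : Set E) (P : E → E) : Prop :=
  ∀ x, P x ∈ C ∧ ∀ y ∈ C, ‖x - P x‖ ≤ ‖x - y‖

/-- The reflector `R = 2 P - Id` of the map `P`. -/
def refl (P : E → E) (x : E) : E := (2 : ℝ) • P x - x

/-- The Douglas-Rachford operator `T = (Id + R_B R_A) / 2` of two maps `PA`, `PB` (the nearest-point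
projections onto `A` and `B`). -/
noncomputable def DR (PA PB : E → E) (x : E) : E :=
  (1 / 2 : ℝ) • (x + refl PB (refl PA x))

/-- `v` is the minimal displacement vector of `T`: an element of least norm in the closure of the
range of `Id - T`. -/
def IsMinDisp (T : E → E) (v : E) : Prop :=
  v ∈ closure (range fun x => x - T x) ∧ ∀ w ∈ closure (range fun x => x - T x), ‖v‖ ≤ ‖w‖

/-- variational inequality -/
theorem IsProj.inner_le {C : Set E} (hC : Convex ℝ C) {P : E → E} (hP : IsProj C P) (x y : E)
    (hy : y ∈ C) : inner ℝ (x - P x) (y - P x) ≤ 0 := by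
  have h1 := hP x
  have : Nonempty C := ⟨⟨_, h1.1⟩⟩
  have h2 : ‖x - P x‖ = ⨅ w : C, ‖x - w‖ := by
    apply le_antisymm
    · exact le_ciInf fun w => h1.2 w w.2
    · exact ciInf_le ⟨0, fun _ ⟨_, h⟩ => h ▸ norm_nonneg _⟩ (⟨P x, h1.1⟩ : C)
  exact (norm_eq_iInf_iff_real_inner_le_zero hC h1.1).1 h2 y hy

/-- uniqueness of the nearest point -/
theorem IsProj.eq_of {C : Set E} (hC : Convex ℝ C) {P : E → E} (hP : IsProj C P) {x q : E}
    (hq : q ∈ C) (h : ‖x - q‖ ≤ ‖x - P x‖) : P x = q := by
  have h1 := hP.inner_le hC x q hq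
  have h2 : ‖x - q‖ ^ 2 = ‖x - P x‖ ^ 2 - 2 * inner ℝ (x - P x) (q - P x) + ‖q - P x‖ ^ 2 := by
    have : x - q = (x - P x) - (q - P x) := by abel
    rw [this, norm_sub_sq_real]
  have h3 : ‖x - q‖ ^ 2 ≤ ‖x - P x‖ ^ 2 := by
    have := norm_nonneg (x - q)
    gcongr
  have h4 : ‖q - P x‖ ^ 2 ≤ 0 := by linarith
  have h5 : ‖q - P x‖ = 0 := by
    have := sq_nonneg ‖q - P x‖
    exact pow_eq_zero_iff (two_ne_zero) |>.1 (le_antisymm h4 this)
  rw [norm_eq_zero, sub_eq_zero] at h5
  exact h5.symm

theorem IsProj.eq_self {C : Set E} (hC : Convex ℝ C) {P : E → E} (hP : IsProj C P) {x : E}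
    (hx : x ∈ C) : P x = x :=
  hP.eq_of hC hx (by simp)

/-- the reflector is nonexpansive -/
theorem IsProj.refl_le {C : Set E} (hC : Convex ℝ C) {P : E → E} (hP : IsProj C P) (x y : E) :
    ‖refl P x - refl P y‖ ≤ ‖x - y‖ := by
  have h1 := hP.inner_le hC x (P y) (hP y).1
  have h2 := hP.inner_le hC y (P x) (hP x).1
  have h3 : ‖refl P x - refl P y‖ ^ 2 = ‖x - y‖ ^ 2 +
      4 * (inner ℝ (x - P x) (P y - P x) + inner ℝ (y - P y) (P x - P y)) := by
    have e1 : refl P x - refl P y = (2 : ℝ) • (P x - P y) - (x - y) := by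
      simp only [refl]; module
    have e2 : inner ℝ (y - P y) (P x - P y) = - inner ℝ (y - P y) (P y - P x) := by
      rw [← inner_neg_right]; congr 1; abel
    have e3 : inner ℝ (x - P x) (P y - P x) + inner ℝ (y - P y) (P x - P y) =
        - inner ℝ (x - y) (P x - P y) + ‖P x - P y‖ ^ 2 := by
      rw [e2, ← sub_eq_add_neg, ← inner_sub_left]
      have : x - P x - (y - P y) = (x - y) - (P x - P y) := by abel
      rw [this, inner_sub_left]
      have e4 : P y - P x = -(P x - P y) := by abel
      rw [e4, inner_neg_right, inner_neg_right, real_inner_self_eq_norm_sq]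
      ring
    rw [e3, e1, norm_sub_sq_real, norm_smul, Real.norm_eq_abs, abs_two, inner_smul_left,
      real_inner_comm (x - y) (P x - P y)]
    simp
    ring
  have h4 : ‖refl P x - refl P y‖ ^ 2 ≤ ‖x - y‖ ^ 2 := by linarith
  exact (sq_le_sq₀ (norm_nonneg _) (norm_nonneg _)).1 h4

/-- the Douglas-Rachford operator is firmly nonexpansive -/
theorem DR_firm {A B : Set E} (hA : Convex ℝ A) (hB : Convex ℝ B) {PA PB : E → E}
    (hPA : IsProj A PA) (hPB : IsProj B PB) (x y : E) :
    ‖DR PA PB x - DR PA PB y‖ ^ 2 + ‖(x - DR PA PB x) - (y - DR PA PB y)‖ ^ 2 ≤ ‖x - y‖ ^ 2 := by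
  set N : E → E := fun x => refl PB (refl PA x) with hN
  have h1 : ‖N x - N y‖ ≤ ‖x - y‖ := (hPB.refl_le hB _ _).trans (hPA.refl_le hA _ _)
  have h2 : ‖N x - N y‖ ^ 2 ≤ ‖x - y‖ ^ 2 := by
    have := norm_nonneg (N x - N y)
    gcongr
  have e1 : DR PA PB x - DR PA PB y = (1 / 2 : ℝ) • ((x - y) + (N x - N y)) := by
    simp only [DR, hN]; module
  have e2 : (x - DR PA PB x) - (y - DR PA PB y) = (1 / 2 : ℝ) • ((x - y) - (N x - N y)) := by
    simp only [DR, hN]; module
  rw [e1, e2, norm_smul, norm_smul, mul_pow, mul_pow, ← mul_add]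
  have h3 := parallelogram_law_with_norm ℝ (x - y) (N x - N y)
  have h4 : ‖(1 / 2 : ℝ)‖ ^ 2 = 1 / 4 := by norm_num
  rw [h4]
  nlinarith [h3, h2]

/-- the projection onto a ball moves a point towards the centre -/
theorem proj_ball {a : E} {r : ℝ} {P : E → E} (hP : IsProj (closedBall a r) P) (x : E) :
    (‖x - a‖ ≤ r → P x = x) ∧ (r < ‖x - a‖ → P x = a + (r / ‖x - a‖) • (x - a)) := by
  have hr : 0 ≤ r := by
    have := (hP a).1
    rw [mem_closedBall, dist_eq_norm] at this
    exact (norm_nonneg _).trans this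
  constructor
  · intro h
    exact hP.eq_self (convex_closedBall a r) (by rwa [mem_closedBall, dist_eq_norm])
  · intro h
    have hx : 0 < ‖x - a‖ := hr.trans_lt h
    apply hP.eq_of (convex_closedBall a r)
    · rw [mem_closedBall, dist_eq_norm, add_sub_cancel_left, norm_smul, norm_div, norm_norm,
        Real.norm_of_nonneg hr, div_mul_cancel₀ _ hx.ne']
    · have e1 : x - (a + (r / ‖x - a‖) • (x - a)) = (1 - r / ‖x - a‖) • (x - a) := by module
      have h2 : r / ‖x - a‖ ≤ 1 := (div_le_one hx).2 h.le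
      rw [e1, norm_smul, Real.norm_of_nonneg (by linarith), sub_mul, div_mul_cancel₀ _ hx.ne',
        one_mul]
      have h3 := (hP x).1
      rw [mem_closedBall, dist_eq_norm] at h3
      have h4 : ‖x - a‖ ≤ ‖x - P x‖ + ‖P x - a‖ := norm_sub_le_norm_sub_add_norm_sub x (P x) a
      linarith

theorem proj_ball_factor {a : E} {r : ℝ} {P : E → E} (hP : IsProj (closedBall a r) P) (x : E) :
    ∃ c : ℝ, 0 ≤ c ∧ c ≤ 1 ∧ P x - a = c • (x - a) := by
  have hr : 0 ≤ r := by
    have := (hP a).1
    rw [mem_closedBall, dist_eq_norm] at this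
    exact (norm_nonneg _).trans this
  rcases le_or_gt ‖x - a‖ r with h | h
  · exact ⟨1, zero_le_one, le_rfl, by rw [(proj_ball hP x).1 h, one_smul]⟩
  · have hx : 0 < ‖x - a‖ := hr.trans_lt h
    exact ⟨r / ‖x - a‖, by positivity, (div_le_one hx).2 h.le, by
      rw [(proj_ball hP x).2 h]; abel⟩

/-- a formula for the Douglas-Rachford operator -/
theorem DR_eq (PA PB : E → E) (x : E) : DR PA PB x = x - PA x + PB (refl PA x) := by
  simp only [DR, refl]
  module

/-- a linear functional that kills `b - a` is multiplied by a factor in `[0, 1]` -/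
theorem DR_factor {a b : E} {r s : ℝ} {PA PB : E → E} (hPA : IsProj (closedBall a r) PA)
    (hPB : IsProj (closedBall b s) PB) (L : E →ₗ[ℝ] E) (hL : L (b - a) = 0) (x : E) :
    ∃ m : ℝ, 0 ≤ m ∧ m ≤ 1 ∧ L (DR PA PB x - a) = m • L (x - a) := by
  obtain ⟨c, hc0, hc1, hc⟩ := proj_ball_factor hPA x
  obtain ⟨c', hc0', hc1', hc'⟩ := proj_ball_factor hPB (refl PA x)
  refine ⟨1 - c + c' * (2 * c - 1), ?_, ?_, ?_⟩
  · rcases le_or_gt 0 (2 * c - 1) with h | h
    · nlinarith [mul_nonneg hc0' h]
    · nlinarith [mul_nonneg (sub_nonneg.2 hc1') (neg_nonneg.2 h.le)]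
  · rcases le_or_gt 0 (2 * c - 1) with h | h
    · nlinarith [mul_nonneg (sub_nonneg.2 hc1') h]
    · nlinarith [mul_nonneg hc0' (neg_nonneg.2 h.le)]
  · have e1 : refl PA x - b = (2 : ℝ) • (PA x - a) - (x - a) - (b - a) := by
      simp only [refl]; module
    have e2 : DR PA PB x - a = (x - a) - (PA x - a) + (PB (refl PA x) - b) + (b - a) := by
      rw [DR_eq]; abel
    have hL' : L b = L a := by
      rw [map_sub, sub_eq_zero] at hL
      exact hL
    rw [e2, hc', e1, hc]
    simp only [map_add, map_sub, map_smul, hL']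
    module

/-- a real sequence with convergent squares and increments tending to zero converges -/
theorem tendsto_of_sq {β : ℕ → ℝ} {l : ℝ} (h1 : Tendsto (fun n => β n ^ 2) atTop (𝓝 l))
    (h2 : Tendsto (fun n => β (n + 1) - β n) atTop (𝓝 0)) : ∃ m, Tendsto β atTop (𝓝 m) := by
  have hl : 0 ≤ l := ge_of_tendsto' h1 fun n => sq_nonneg _
  have h3 : Tendsto (fun n => |β n|) atTop (𝓝 (√l)) := by
    have := (Real.continuous_sqrt.tendsto l).comp h1
    simpa [Function.comp_def, Real.sqrt_sq_eq_abs] using this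
  rcases hl.eq_or_lt with h0 | h0
  · refine ⟨0, ?_⟩
    rw [← h0, Real.sqrt_zero] at h3
    exact tendsto_zero_iff_abs_tendsto_zero _ |>.2 h3
  · have hs : 0 < √l := Real.sqrt_pos.2 h0
    have h4 : ∀ᶠ n in atTop, √l / 2 < |β n| := h3.eventually_const_lt (by linarith)
    have h5 : ∀ᶠ n in atTop, |β (n + 1) - β n| < √l / 2 := by
      have := (tendsto_zero_iff_abs_tendsto_zero _).1 h2
      exact this.eventually_lt_const (by positivity)
    obtain ⟨N, hN⟩ := eventually_atTop.1 (h4.and h5)
    rcases le_or_gt 0 (β N) with hp | hp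
    · have key : ∀ n ≥ N, 0 ≤ β n := by
        intro n hn
        induction n, hn using Nat.le_induction with
        | base => exact hp
        | succ n hn ih =>
          have a1 := (hN n hn).1
          have a2 := (hN n hn).2
          rw [abs_of_nonneg ih] at a1
          have := abs_lt.1 a2
          linarith
      refine ⟨√l, h3.congr' ?_⟩
      filter_upwards [eventually_ge_atTop N] with n hn
      exact abs_of_nonneg (key n hn)
    · have key : ∀ n ≥ N, β n ≤ 0 := by
        intro n hn
        induction n, hn using Nat.le_induction with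
        | base => exact hp.le
        | succ n hn ih =>
          have a1 := (hN n hn).1
          have a2 := (hN n hn).2
          rw [abs_of_nonpos ih] at a1
          have := abs_lt.1 a2
          linarith
      refine ⟨-√l, h3.neg.congr' ?_⟩
      filter_upwards [eventually_ge_atTop N] with n hn
      rw [abs_of_nonpos (key n hn), neg_neg]

/-- The component orthogonal to `d`. -/
noncomputable def perp (d : E) : E →ₗ[ℝ] E :=
  LinearMap.id - ((innerₗ E) d).smulRight ((‖d‖ ^ 2)⁻¹ • d)

theorem perp_apply (d x : E) : perp d x = x - (inner ℝ d x * (‖d‖ ^ 2)⁻¹) • d := by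
  simp [perp, smul_smul]

theorem perp_self (d : E) : perp d d = 0 := by
  rw [perp_apply, real_inner_self_eq_norm_sq]
  rcases eq_or_ne d 0 with h | h
  · simp [h]
  · have : ‖d‖ ^ 2 ≠ 0 := by simpa using h
    rw [mul_inv_cancel₀ this, one_smul, sub_self]

/-- the main convergence statement: existence of a point on the axis with regular orbit -/
theorem main_conv {a b : E} {r s : ℝ} {PA PB : E → E} (hPA : IsProj (closedBall a r) PA)
    (hPB : IsProj (closedBall b s) PB) (v f : E) (t κ : ℝ) (hv : v = κ • (b - a))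
    (hf : f = a + t • (b - a)) (hT : ∀ n : ℕ, (DR PA PB)^[n] f = f - (n : ℝ) • v) (x : E) :
    ∃ L, Tendsto (fun n : ℕ => (DR PA PB)^[n] x + (n : ℝ) • v) atTop (𝓝 L) := by
  set T := DR PA PB with hTdef
  set d := b - a with hd
  set y : ℕ → E := fun n => T^[n] x + (n : ℝ) • v with hy
  -- the orthogonal component
  set w : ℕ → E := fun n => perp d (T^[n] x - a) with hw
  have hwy : ∀ n, perp d (y n - f) = w n := by
    intro n
    have : y n - f = (T^[n] x - a) + ((n : ℝ) * κ - t) • d := by
      simp only [hy, hv, hf]; module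
    rw [this, map_add, map_smul, perp_self, smul_zero, add_zero]
  have hm : ∀ z, ∃ m : ℝ, 0 ≤ m ∧ m ≤ 1 ∧ perp d (T z - a) = m • perp d (z - a) := fun z =>
    DR_factor hPA hPB (perp d) (perp_self d) z
  choose m hm0 hm1 hm using hm
  have hM : ∀ n, w n = (∏ i ∈ Finset.range n, m (T^[i] x)) • w 0 := by
    intro n
    induction n with
    | zero => simp
    | succ n ih =>
      have : w (n + 1) = m (T^[n] x) • w n := by
        simp only [hw]
        rw [Function.iterate_succ_apply', hm]
      rw [this, ih, smul_smul, Finset.prod_range_succ, mul_comm]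
  have hM0 : ∀ n, 0 ≤ ∏ i ∈ Finset.range n, m (T^[i] x) := fun n =>
    Finset.prod_nonneg fun i _ => hm0 _
  have hManti : Antitone fun n => ∏ i ∈ Finset.range n, m (T^[i] x) := by
    apply antitone_nat_of_succ_le
    intro n
    rw [Finset.prod_range_succ]
    exact mul_le_of_le_one_right (hM0 n) (hm1 _)
  have hMlim : Tendsto (fun n => ∏ i ∈ Finset.range n, m (T^[i] x)) atTop
      (𝓝 (⨅ n, ∏ i ∈ Finset.range n, m (T^[i] x))) :=
    tendsto_atTop_ciInf hManti ⟨0, by rintro _ ⟨n, rfl⟩; exact hM0 n⟩
  have hwlim : ∃ W, Tendsto w atTop (𝓝 W) :=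
    ⟨_, (hMlim.smul_const (w 0)).congr fun n => (hM n).symm⟩
  obtain ⟨W, hW⟩ := hwlim
  -- Fejer monotonicity and asymptotic regularity
  have hfirm : ∀ n, ‖y (n + 1) - f‖ ^ 2 + ‖y (n + 1) - y n‖ ^ 2 ≤ ‖y n - f‖ ^ 2 := by
    intro n
    have h1 := DR_firm (convex_closedBall a r) (convex_closedBall b s) hPA hPB (T^[n] x) (T^[n] f)
    rw [← hTdef] at h1
    have e1 : T (T^[n] x) - T (T^[n] f) = y (n + 1) - f := by
      rw [← Function.iterate_succ_apply' T n x, ← Function.iterate_succ_apply' T n f, hT]
      simp only [hy]; abel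
    have e2 : T^[n] x - T^[n] f = y n - f := by
      rw [hT]; simp only [hy]; abel
    have e3 : T^[n] x - T (T^[n] x) - (T^[n] f - T (T^[n] f)) = -(y (n + 1) - y n) := by
      have : T^[n] x - T (T^[n] x) - (T^[n] f - T (T^[n] f)) =
        (T^[n] x - T^[n] f) - (T (T^[n] x) - T (T^[n] f)) := by abel
      rw [this, e1, e2]; abel
    rwa [e1, e2, e3, norm_neg] at h1
  have hanti : Antitone fun n => ‖y n - f‖ ^ 2 := by
    apply antitone_nat_of_succ_le
    intro n
    have := hfirm n
    have h2 := sq_nonneg ‖y (n + 1) - y n‖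
    linarith
  obtain ⟨l, hl⟩ : ∃ l, Tendsto (fun n => ‖y n - f‖ ^ 2) atTop (𝓝 l) :=
    ⟨_, tendsto_atTop_ciInf hanti ⟨0, by rintro _ ⟨n, rfl⟩; exact sq_nonneg _⟩⟩
  have hreg : Tendsto (fun n => y (n + 1) - y n) atTop (𝓝 0) := by
    have h1 : Tendsto (fun n => ‖y n - f‖ ^ 2 - ‖y (n + 1) - f‖ ^ 2) atTop (𝓝 0) := by
      have := hl.sub ((tendsto_add_atTop_iff_nat 1).2 hl)
      rwa [sub_self] at this
    have h2 : Tendsto (fun n => ‖y (n + 1) - y n‖ ^ 2) atTop (𝓝 0) :=
      squeeze_zero (fun n => sq_nonneg _) (fun n => by have := hfirm n; linarith) h1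
    have h3 : Tendsto (fun n => ‖y (n + 1) - y n‖) atTop (𝓝 0) := by
      have := (Real.continuous_sqrt.tendsto 0).comp h2
      simpa [Function.comp_def, Real.sqrt_sq] using this
    exact tendsto_zero_iff_norm_tendsto_zero.2 h3
  -- the component along `d`
  set β : ℕ → ℝ := fun n => inner ℝ d (y n - f) * ‖d‖⁻¹ with hβ
  have hdec : ∀ n, y n = f + (β n * ‖d‖⁻¹) • d + w n := by
    intro n
    rw [← hwy n, perp_apply]
    have : inner ℝ d (y n - f) * (‖d‖ ^ 2)⁻¹ = β n * ‖d‖⁻¹ := by
      simp only [hβ]
      rw [sq, mul_inv, mul_assoc]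
    rw [this]; abel
  have horth : ∀ n, inner ℝ d (w n) = 0 := by
    intro n
    rw [← hwy n, perp_apply, inner_sub_right, inner_smul_right, real_inner_self_eq_norm_sq]
    rcases eq_or_ne d 0 with h | h
    · simp [h]
    · have : ‖d‖ ^ 2 ≠ 0 := by simpa using h
      rw [mul_assoc, inv_mul_cancel₀ this, mul_one, sub_self]
  have hpyth : ∀ n, ‖y n - f‖ ^ 2 = β n ^ 2 + ‖w n‖ ^ 2 := by
    intro n
    have e1 : y n - f = (β n * ‖d‖⁻¹) • d + w n := by rw [hdec n]; abel
    rw [e1, norm_add_sq_real, inner_smul_left, horth, mul_zero, mul_zero, add_zero, norm_smul,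
      mul_pow]
    congr 1
    rcases eq_or_ne d 0 with h | h
    · simp [h, hβ]
    · have : ‖d‖ ≠ 0 := by simpa using h
      rw [Real.norm_eq_abs, sq_abs]
      field_simp
  have hβ2 : Tendsto (fun n => β n ^ 2) atTop (𝓝 (l - ‖W‖ ^ 2)) := by
    refine (hl.sub (hW.norm.pow 2)).congr fun n => ?_
    rw [hpyth n]; ring
  have hβ1 : Tendsto (fun n => β (n + 1) - β n) atTop (𝓝 0) := by
    have h1 : Tendsto (fun n => inner ℝ d (y (n + 1) - y n) * ‖d‖⁻¹) atTop (𝓝 (inner ℝ d (0 : E) * ‖d‖⁻¹)) :=
      (tendsto_const_nhds.inner hreg).mul_const _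
    rw [inner_zero_right, zero_mul] at h1
    refine h1.congr fun n => ?_
    simp only [hβ]
    rw [← sub_mul, ← inner_sub_right]
    congr 2; abel
  obtain ⟨β', hβ'⟩ := tendsto_of_sq hβ2 hβ1
  refine ⟨f + (β' * ‖d‖⁻¹) • d + W, ?_⟩
  have : Tendsto (fun n => f + (β n * ‖d‖⁻¹) • d + w n) atTop (𝓝 (f + (β' * ‖d‖⁻¹) • d + W)) :=
    (tendsto_const_nhds.add ((hβ'.mul_const _).smul_const d)).add hW
  exact this.congr fun n => (hdec n).symm

/-- Let `A = closedBall a r` and `B = closedBall b s` be closed balls (`r, s ≥ 0`) of a real inner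
product space (of arbitrary dimension, for instance `ℝ³`) and let `T` be their Douglas-Rachford
operator. Then `T` has exactly one minimal displacement vector `v`, and for every `x` the sequence
`T^n x + n v` converges. -/
theorem result {E : Type*} [NormedAddCommGroup E] [InnerProductSpace ℝ E] (a b : E) (r s : ℝ)
    (PA PB : E → E) (hPA : IsProj (closedBall a r) PA) (hPB : IsProj (closedBall b s) PB) :
    ∃ v : E, IsMinDisp (DR PA PB) v ∧ (∀ v', IsMinDisp (DR PA PB) v' → v' = v) ∧
      ∀ x : E, ∃ L : E, Tendsto (fun n : ℕ => (DR PA PB)^[n] x + (n : ℝ) • v) atTop (𝓝 L) := by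
  have hr : 0 ≤ r := by
    have := (hPA a).1
    rw [mem_closedBall, dist_eq_norm] at this
    exact (norm_nonneg _).trans this
  have hs : 0 ≤ s := by
    have := (hPB b).1
    rw [mem_closedBall, dist_eq_norm] at this
    exact (norm_nonneg _).trans this
  set D := ‖b - a‖ with hD
  have hD0 : 0 ≤ D := norm_nonneg _
  -- all displacements are in the ball around `a - b`
  have hdisp : ∀ w ∈ closure (range fun x => x - DR PA PB x), ‖w + (b - a)‖ ≤ r + s := by
    intro w hw
    have hcl : IsClosed {w : E | ‖w + (b - a)‖ ≤ r + s} :=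
      isClosed_le (by fun_prop) continuous_const
    refine closure_minimal ?_ hcl hw
    rintro _ ⟨x, rfl⟩
    have e1 : x - DR PA PB x + (b - a) = (PA x - a) - (PB (refl PA x) - b) := by
      rw [DR_eq]; abel
    have h1 := (hPA x).1
    have h2 := (hPB (refl PA x)).1
    rw [mem_closedBall, dist_eq_norm] at h1 h2
    change ‖_ + (b - a)‖ ≤ r + s
    rw [e1]
    exact (norm_sub_le _ _).trans (add_le_add h1 h2)
  rcases le_or_gt D (r + s) with hcase | hcase
  · -- the balls intersect
    obtain ⟨t, ht0, ht1, ht2, ht3⟩ : ∃ t : ℝ, 0 ≤ t ∧ t ≤ 1 ∧ t * D ≤ r ∧ (1 - t) * D ≤ s := by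
      rcases le_or_gt D r with h | h
      · exact ⟨1, zero_le_one, le_rfl, by linarith, by simpa using hs⟩
      · have hDpos : 0 < D := hr.trans_lt h
        refine ⟨r / D, by positivity, (div_le_one hDpos).2 h.le, ?_, ?_⟩
        · rw [div_mul_cancel₀ _ hDpos.ne']
        · rw [sub_mul, div_mul_cancel₀ _ hDpos.ne']; linarith
    set f := a + t • (b - a) with hf
    have hfA : PA f = f := by
      apply hPA.eq_self (convex_closedBall a r)
      rw [mem_closedBall, dist_eq_norm, hf, add_sub_cancel_left, norm_smul, Real.norm_of_nonneg ht0]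
      exact ht2
    have hfB : PB f = f := by
      apply hPB.eq_self (convex_closedBall b s)
      have e1 : f - b = -((1 - t) • (b - a)) := by rw [hf]; module
      rw [mem_closedBall, dist_eq_norm, e1, norm_neg, norm_smul, Real.norm_of_nonneg (by linarith)]
      exact ht3
    have hTf : DR PA PB f = f := by
      have : refl PA f = f := by simp only [refl, hfA]; module
      rw [DR_eq, this, hfA, hfB]; abel
    refine ⟨0, ⟨subset_closure ⟨f, ?_⟩, fun w _ => by rw [norm_zero]; exact norm_nonneg _⟩, ?_, ?_⟩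
    · simp only [hTf, sub_self]
    · intro v' hv'
      have := hv'.2 0 (subset_closure ⟨f, by simp only [hTf, sub_self]⟩)
      rw [norm_zero] at this
      exact norm_le_zero_iff.1 this
    · intro x
      refine main_conv hPA hPB 0 f t 0 (by simp) hf (fun n => ?_) x
      rw [smul_zero, sub_zero]
      exact Function.iterate_fixed hTf n
  · -- the balls are disjoint
    have hDpos : 0 < D := (add_nonneg hr hs).trans_lt hcase
    set δ := D - (r + s) with hδ
    have hδ0 : 0 < δ := by linarith
    set v : E := (-(δ / D)) • (b - a) with hv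
    set f := a + (r / D) • (b - a) with hf
    have hnv : ‖v‖ = δ := by
      rw [hv, norm_smul, norm_neg, Real.norm_of_nonneg (by positivity), ← hD,
        div_mul_cancel₀ _ hDpos.ne']
    -- points on the axis beyond `f`
    have haxis : ∀ κ : ℝ, r ≤ κ * D → DR PA PB (a + κ • (b - a)) = a + κ • (b - a) - v := by
      intro κ hκ
      have hκ0 : 0 ≤ κ := by
        by_contra h
        push Not at h
        nlinarith
      set z := a + κ • (b - a) with hz
      have hPz : PA z = a + (r / D) • (b - a) := by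
        have e1 : z - a = κ • (b - a) := by rw [hz]; abel
        have e2 : ‖z - a‖ = κ * D := by rw [e1, norm_smul, Real.norm_of_nonneg hκ0]
        rcases hκ.eq_or_lt with h | h
        · rw [(proj_ball hPA z).1 (by rw [e2]; exact h.ge), hz, h, mul_div_assoc, div_self hDpos.ne',
            mul_one]
        · rw [(proj_ball hPA z).2 (by rw [e2]; exact h), e2, e1, smul_smul]
          congr 2
          have : κ ≠ 0 := by
            rintro rfl
            rw [zero_mul] at h
            linarith
          field_simp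
      have hRz : refl PA z = b + (2 * (r / D) - κ - 1) • (b - a) := by
        rw [refl, hPz, hz]; module
      have hPBz : PB (refl PA z) = b - (s / D) • (b - a) := by
        have e1 : refl PA z - b = (2 * (r / D) - κ - 1) • (b - a) := by rw [hRz]; abel
        have hneg : 2 * (r / D) - κ - 1 < 0 := by
          have : r / D ≤ κ := by rw [div_le_iff₀ hDpos]; exact hκ
          have : r / D < 1 := by rw [div_lt_one hDpos]; linarith
          linarith
        have e2 : ‖refl PA z - b‖ = (1 + κ - 2 * (r / D)) * D := by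
          rw [e1, norm_smul, Real.norm_of_nonpos hneg.le]; ring
        have h1 : s < ‖refl PA z - b‖ := by
          rw [e2]
          have : (1 + κ - 2 * (r / D)) * D = D + κ * D - 2 * r := by
            field_simp
          rw [this]; linarith
        have e3 : b - (s / D) • (b - a) = b + (-(s / D)) • (b - a) := by module
        rw [(proj_ball hPB _).2 h1, e2, e1, smul_smul, e3]
        congr 2
        have hne : (1 + κ - 2 * (r / D)) ≠ 0 := by linarith
        have : 2 * (r / D) - κ - 1 = -(1 + κ - 2 * (r / D)) := by ring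
        rw [this]
        generalize 1 + κ - 2 * (r / D) = q at hne
        field_simp
      rw [DR_eq, hPz, hPBz, hv, hδ]
      have : (D - (r + s)) / D = 1 - r / D - s / D := by field_simp; ring
      rw [this]
      simp only [hz]; module
    have hvr : v ∈ range fun x => x - DR PA PB x := by
      refine ⟨f, ?_⟩
      simp only
      rw [hf, haxis (r / D) (by rw [div_mul_cancel₀ _ hDpos.ne'])]
      abel
    refine ⟨v, ⟨subset_closure hvr, fun w hw => ?_⟩, ?_, ?_⟩
    · have h1 := hdisp w hw
      have h2 : D ≤ ‖w + (b - a)‖ + ‖w‖ := by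
        have : b - a = (w + (b - a)) - w := by abel
        calc D = ‖(w + (b - a)) - w‖ := by rw [hD]; congr 1
          _ ≤ _ := norm_sub_le _ _
      rw [hnv]; linarith
    · intro v' hv'
      have h1 := hdisp v' hv'.1
      have h2 := hv'.2 v (subset_closure hvr)
      rw [hnv] at h2
      have h3 : ‖v' + (b - a)‖ ^ 2 ≤ (r + s) ^ 2 := by
        have := norm_nonneg (v' + (b - a))
        gcongr
      rw [norm_add_sq_real, ← hD] at h3
      have h4 : ‖v'‖ ^ 2 ≤ δ ^ 2 := by
        have := norm_nonneg v'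
        gcongr
      have h5 : ‖v' - v‖ ^ 2 = ‖v'‖ ^ 2 + 2 * (δ / D) * inner ℝ v' (b - a) + δ ^ 2 := by
        rw [norm_sub_sq_real, hnv, hv, inner_smul_right]; ring
      have h6 : ‖v' - v‖ ^ 2 ≤ 0 := by
        rw [h5]
        have hle : δ / D ≤ 1 := by rw [div_le_one hDpos]; linarith
        have h7 : (δ / D) * (2 * inner ℝ v' (b - a)) ≤
            (δ / D) * ((r + s) ^ 2 - D ^ 2 - ‖v'‖ ^ 2) :=
          mul_le_mul_of_nonneg_left (by linarith) (by positivity)
        have h8 : (1 - δ / D) * ‖v'‖ ^ 2 ≤ (1 - δ / D) * δ ^ 2 :=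
          mul_le_mul_of_nonneg_left h4 (by linarith)
        have h9 : (δ / D) * ((r + s) ^ 2 - D ^ 2) + (1 - δ / D) * δ ^ 2 + δ ^ 2 = 0 := by
          rw [hδ]; field_simp; ring
        nlinarith
      have h7 : ‖v' - v‖ = 0 := by
        exact pow_eq_zero_iff (two_ne_zero) |>.1 (le_antisymm h6 (sq_nonneg _))
      rw [norm_eq_zero, sub_eq_zero] at h7
      exact h7
    · intro x
      refine main_conv hPA hPB v f (r / D) (-(δ / D)) hv hf (fun n => ?_) x
      induction n with
      | zero => simp
      | succ n ih =>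
        rw [Function.iterate_succ_apply', ih]
        have e1 : f - (n : ℝ) • v = a + (r / D + n * (δ / D)) • (b - a) := by
          rw [hf, hv]; module
        have h1 : r ≤ (r / D + n * (δ / D)) * D := by
          have : (r / D + n * (δ / D)) * D = r + n * δ := by field_simp
          rw [this]
          have : 0 ≤ (n : ℝ) * δ := by positivity
          linarith
        rw [e1, haxis _ h1, ← e1]
        push_cast
        module

end Pool.Agent.Results.MP_ef197a_an.ShiftedDR
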